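import Pool.Agent.Lib.MP_115f17_an.Shift

set_option autoImplicit false

open ZeroAtInfty Pool.Agent.MP115f17

/-- Every operator that satisfies the Frequent Hypercyclicity Criterion has a frequently
hypercyclic vector whose visit sets of the open sets away from `0` contain no set of positive
density; and there are such operators over the reals and over the complex numbers. -/
theorem Pool.Agent.Results.MP_115f17_an.EveryFHCOperator.result :
    (∀ (𝕜 : Type) [RCLike 𝕜] (X : Type) [NormedAddCommGroup X] [NormedSpace 𝕜 X]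
      [CompleteSpace X] [TopologicalSpace.SeparableSpace X] (T : X → X), FHCriterion 𝕜 T →
      ∃ x : X, FreqHypercyclic T x ∧ ∀ U : Set X, IsOpen U → 0 ∉ closure U →
        NoDensity (visit T x U)) ∧
    (∀ (𝕜 : Type) [RCLike 𝕜], ∃ (X : Type) (_ : NormedAddCommGroup X) (_ : NormedSpace 𝕜 X)
      (_ : CompleteSpace X) (T : X → X) (x : X) (U : Set X), IsBoundedLinearMap 𝕜 T ∧
      FreqHypercyclic T x ∧ IsOpen U ∧ U.Nonempty ∧ NoDensity (visit T x U)) := by
  refine ⟨fun 𝕜 _ X _ _ _ _ T hT => of_criterion T hT, fun 𝕜 _ => ?_⟩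
  have := c0_separable (𝕜 := 𝕜)
  have hc : 1 < ‖(2 : 𝕜)‖ := by
    rw [RCLike.norm_ofNat]
    norm_num
  obtain ⟨x, hx1, hx2⟩ := of_criterion _ (bshift_criterion hc)
  obtain ⟨U, hU1, hU2, hU3⟩ := exists_away (𝕜 := 𝕜)
  exact ⟨C₀(ℕ, 𝕜), inferInstance, inferInstance, inferInstance, bshift (2 : 𝕜), x, U,
    (bshift (2 : 𝕜)).isBoundedLinearMap, hx1, hU1, hU2, hx2 U hU1 hU3⟩
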